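import Mathlib

/-!
# MP_01f63f_co: lengths of increasing blocks in the greedy permutation

A partial result on Q1: bounds for the number of consecutive increasing terms of the greedy
permutation, one unconditional and one in terms of the number of earlier double descents.
-/

namespace Pool.Agent.Results.MP_01f63f_co.BlockLength

/-- `a 1, a 2, …` is the greedy permutation `A*` of the problem (the value `a 0` plays no role):
`a 1 = 1`, `a 2 = 2`, and for `n ≥ 2` the term `a (n + 1)` is the least positive integer `t`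
that is none of `a 1, …, a n` and for which `|a n - t|` is none of the differences
`|a (i + 1) - a i|`, `1 ≤ i < n`. -/
def IsGreedy (a : ℕ → ℤ) : Prop :=
  a 1 = 1 ∧ a 2 = 2 ∧ ∀ n : ℕ, 2 ≤ n →
    IsLeast {t : ℤ | 0 < t ∧ (∀ i, 1 ≤ i → i ≤ n → a i ≠ t) ∧
      ∀ i, 1 ≤ i → i < n → |a n - t| ≠ |a (i + 1) - a i|} (a (n + 1))

/-- The number of double descents `a (m - 1) > a m > a (m + 1)` with `2 ≤ m < i`. -/
noncomputable def dd (a : ℕ → ℤ) (i : ℕ) : ℕ :=
  ((Finset.range i).filter (fun m => 2 ≤ m ∧ a m < a (m - 1) ∧ a (m + 1) < a m)).card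

/-- The same sequence with indices from `0`. -/
structure G (b : ℕ → ℤ) : Prop where
  zero : b 0 = 1
  least : ∀ N : ℕ, IsLeast {t : ℤ | 0 < t ∧ (∀ i, i ≤ N → b i ≠ t) ∧
      ∀ i, i < N → |b N - t| ≠ |b (i + 1) - b i|} (b (N + 1))

theorem G_of (a : ℕ → ℤ) (h : IsGreedy a) : G (fun j => a (j + 1)) := by
  obtain ⟨h1, h2, h3⟩ := h
  refine ⟨h1, ?_⟩
  intro N
  rcases Nat.eq_zero_or_pos N with rfl | hN
  · constructor
    · refine ⟨?_, ?_, ?_⟩
      · show (0:ℤ) < a 2
        rw [h2]; norm_num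
      · intro i hi
        have : i = 0 := by omega
        subst this
        show a 1 ≠ a 2
        rw [h1, h2]; norm_num
      · intro i hi
        exact absurd hi (Nat.not_lt_zero i)
    · intro t ht
      obtain ⟨ht1, ht2, -⟩ := ht
      have := ht2 0 le_rfl
      show a 2 ≤ t
      have h4 : a 1 ≠ t := this
      rw [h1] at h4
      rw [h2]
      omega
  · have := h3 (N + 1) (by omega)
    constructor
    · obtain ⟨⟨p1, p2, p3⟩, -⟩ := this
      refine ⟨p1, ?_, ?_⟩
      · intro i hi
        exact p2 (i + 1) (by omega) (by omega)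
      · intro i hi
        exact p3 (i + 1) (by omega) (by omega)
    · intro t ht
      obtain ⟨p1, p2, p3⟩ := ht
      refine this.2 ⟨p1, ?_, ?_⟩
      · intro i hi1 hi2
        have := p2 (i - 1) (by omega)
        have e : i - 1 + 1 = i := by omega
        simpa [e] using this
      · intro i hi1 hi2
        have := p3 (i - 1) (by omega)
        have e : i - 1 + 1 = i := by omega
        simpa [e] using this

section

variable {b : ℕ → ℤ}

theorem G.pos (h : G b) (i : ℕ) : 0 < b i := by
  cases i with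
  | zero => rw [h.zero]; norm_num
  | succ N => exact (h.least N).1.1

theorem G.ne (h : G b) {i j : ℕ} (hij : i < j) : b i ≠ b j := by
  obtain ⟨N, rfl⟩ : ∃ N, j = N + 1 := ⟨j - 1, by omega⟩
  exact (h.least N).1.2.1 i (by omega)

theorem G.inj (h : G b) : Function.Injective b := by
  intro i j hij
  rcases lt_trichotomy i j with h1 | h1 | h1
  · exact absurd hij (h.ne h1)
  · exact h1
  · exact absurd hij.symm (h.ne h1)

theorem G.dne (h : G b) {i j : ℕ} (hij : i < j) :
    |b (i + 1) - b i| ≠ |b (j + 1) - b j| := by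
  have := (h.least j).1.2.2 i hij
  rw [abs_sub_comm (b j)] at this
  exact this.symm

theorem G.dinj (h : G b) : Function.Injective (fun i => |b (i + 1) - b i|) := by
  intro i j hij
  rcases lt_trichotomy i j with h1 | h1 | h1
  · exact absurd hij (h.dne h1)
  · exact h1
  · exact absurd hij.symm (h.dne h1)

theorem G.min (h : G b) {N : ℕ} {t : ℤ} (h1 : 0 < t) (h2 : ∀ i, i ≤ N → b i ≠ t)
    (h3 : ∀ i, i < N → |b N - t| ≠ |b (i + 1) - b i|) : b (N + 1) ≤ t :=
  (h.least N).2 ⟨h1, h2, h3⟩

/-- An ascent starts below `2 n`. -/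
theorem G.asc_le (h : G b) {N : ℕ} (hN : b N < b (N + 1)) : b N ≤ 2 * (N : ℤ) + 1 := by
  classical
  have hsub : Finset.Icc 1 (b N - 1) ⊆ (Finset.range N).image b ∪
      (Finset.range N).image (fun i => b N - |b (i + 1) - b i|) := by
    intro t ht
    rw [Finset.mem_Icc] at ht
    by_contra hcon
    rw [Finset.mem_union, not_or] at hcon
    obtain ⟨c1, c2⟩ := hcon
    have := h.min (N := N) (t := t) (by omega) ?_ ?_
    · omega
    · intro i hi hbi
      rcases Nat.lt_or_ge i N with h4 | h4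
      · exact c1 (Finset.mem_image.2 ⟨i, Finset.mem_range.2 h4, hbi⟩)
      · have : i = N := le_antisymm hi h4
        subst this
        omega
    · intro i hi hd
      apply c2
      refine Finset.mem_image.2 ⟨i, Finset.mem_range.2 hi, ?_⟩
      rw [abs_of_pos (by omega : 0 < b N - t)] at hd
      show b N - |b (i + 1) - b i| = t
      omega
  have hc := Finset.card_le_card hsub
  have h5 : ((Finset.range N).image b ∪
      (Finset.range N).image (fun i => b N - |b (i + 1) - b i|)).card ≤ N + N := by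
    refine (Finset.card_union_le _ _).trans ?_
    refine add_le_add ?_ ?_
    · exact Finset.card_image_le.trans (by rw [Finset.card_range])
    · exact Finset.card_image_le.trans (by rw [Finset.card_range])
  rw [Int.card_Icc] at hc
  have := h.pos N
  omega

theorem G.le3 (h : G b) (N : ℕ) : b N ≤ 3 * (N : ℤ) + 1 := by
  classical
  cases N with
  | zero => rw [h.zero]; norm_num
  | succ N =>
    have hsub : Finset.Icc 1 (b (N + 1) - 1) ⊆ (Finset.range (N + 1)).image b ∪
        ((Finset.range N).image (fun i => b N - |b (i + 1) - b i|) ∪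
          (Finset.range N).image (fun i => b N + |b (i + 1) - b i|)) := by
      intro t ht
      rw [Finset.mem_Icc] at ht
      by_contra hcon
      rw [Finset.mem_union, Finset.mem_union, not_or, not_or] at hcon
      obtain ⟨c1, c2, c3⟩ := hcon
      have := h.min (N := N) (t := t) (by omega) ?_ ?_
      · omega
      · intro i hi hbi
        exact c1 (Finset.mem_image.2 ⟨i, Finset.mem_range.2 (by omega), hbi⟩)
      · intro i hi hd
        rcases le_total t (b N) with h4 | h4
        · apply c2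
          refine Finset.mem_image.2 ⟨i, Finset.mem_range.2 hi, ?_⟩
          rw [abs_of_nonneg (by omega : 0 ≤ b N - t)] at hd
          show b N - |b (i + 1) - b i| = t
          omega
        · apply c3
          refine Finset.mem_image.2 ⟨i, Finset.mem_range.2 hi, ?_⟩
          rw [abs_of_nonpos (by omega : b N - t ≤ 0)] at hd
          show b N + |b (i + 1) - b i| = t
          omega
    have hc := Finset.card_le_card hsub
    have h5 : ((Finset.range (N + 1)).image b ∪
        ((Finset.range N).image (fun i => b N - |b (i + 1) - b i|) ∪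
          (Finset.range N).image (fun i => b N + |b (i + 1) - b i|))).card
          ≤ (N + 1) + (N + N) := by
      refine (Finset.card_union_le _ _).trans ?_
      refine add_le_add ?_ ((Finset.card_union_le _ _).trans (add_le_add ?_ ?_))
      · exact Finset.card_image_le.trans (by rw [Finset.card_range])
      · exact Finset.card_image_le.trans (by rw [Finset.card_range])
      · exact Finset.card_image_le.trans (by rw [Finset.card_range])
    rw [Int.card_Icc] at hc
    have := h.pos (N + 1)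
    push_cast
    omega

/-- The exchange: an ascent from `b m` which passes over `b m + v`, `v` a difference that has not
occurred, comes after a descent from `b m + v` to a value below `b m`. -/
theorem G.exch (h : G b) {N m : ℕ} {v : ℤ} (hv : 0 < v)
    (hd : ∀ i, i < N → |b (i + 1) - b i| ≠ v) (hm : m < N) (ha : b m + v < b (m + 1)) :
    ∃ j, j < m ∧ b j = b m + v ∧ b (j + 1) < b m := by
  have h1 : ∃ j, j ≤ m ∧ b j = b m + v := by
    by_contra hcon
    push Not at hcon
    have := h.min (N := m) (t := b m + v) (by have := h.pos m; omega)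
      (fun i hi => hcon i hi) ?_
    · omega
    · intro i hi
      have e : |b m - (b m + v)| = v := by
        rw [abs_of_neg (by omega)]; ring
      rw [e]
      exact (hd i (by omega)).symm
  obtain ⟨j, hj, hjv⟩ := h1
  have hjm : j < m := by
    rcases Nat.lt_or_ge j m with h2 | h2
    · exact h2
    · have : j = m := le_antisymm hj h2
      subst this
      omega
  refine ⟨j, hjm, hjv, ?_⟩
  have h2 := h.min (N := j) (t := b m) (h.pos m) (fun i hi => h.ne (by omega)) ?_
  · have h3 : b (j + 1) ≠ b m := by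
      intro h4
      apply hd j (by omega)
      rw [h4, hjv, abs_of_neg (by omega)]
      ring
    omega
  · intro i hi
    have e : |b j - b m| = v := by
      rw [hjv, abs_of_pos (by omega)]; ring
    rw [e]
    exact (hd i (by omega)).symm

end

/-- A sum of distinct integers that are at least `v`. -/
theorem sum_low (v : ℤ) (S : Finset ℤ) : (∀ x ∈ S, v ≤ x) →
    2 * v * (S.card : ℤ) + (S.card : ℤ) * ((S.card : ℤ) - 1) ≤ 2 * ∑ x ∈ S, x := by
  classical
  induction S using Finset.induction_on_max with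
  | empty => intro _; simp
  | insert a S ha ih =>
    intro h
    have hn : a ∉ S := fun h1 => lt_irrefl _ (ha a h1)
    have ih' := ih (fun x hx => h x (Finset.mem_insert_of_mem hx))
    have hav : v ≤ a := h a (Finset.mem_insert_self a S)
    have hc : (S.card : ℤ) ≤ a - v := by
      have hsub : S ⊆ Finset.Ico v a := by
        intro x hx
        rw [Finset.mem_Ico]
        exact ⟨h x (Finset.mem_insert_of_mem hx), ha x hx⟩
      have := Finset.card_le_card hsub
      rw [Int.card_Ico] at this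
      omega
    rw [Finset.sum_insert hn, Finset.card_insert_of_notMem hn]
    push_cast
    nlinarith

section

variable {b : ℕ → ℤ}

/-- The indices of the double descents before `N`. -/
noncomputable def DDs (b : ℕ → ℤ) (N : ℕ) : Finset ℕ :=
  (Finset.range N).filter (fun l => 1 ≤ l ∧ b l < b (l - 1) ∧ b (l + 1) < b l)

/-- The main counting: a difference `v` that has not occurred in the first `N` steps. -/
theorem G.mex (h : G b) {N : ℕ} {v : ℤ} (hN : 1 ≤ N) (hv : 0 < v)
    (hd : ∀ i, i < N → |b (i + 1) - b i| ≠ v) :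
    (N : ℤ) - 5 ≤ 24 * v + 20 * ((DDs b N).card : ℤ) := by
  classical
  set Asc := (Finset.range N).filter (fun m => b m < b (m + 1)) with hAsc
  set Desc := (Finset.range N).filter (fun m => b (m + 1) < b m) with hDesc
  set A' := (Finset.range N).filter (fun m => b m + v < b (m + 1)) with hA'
  set L := Desc.image (fun m => m + 1) with hL
  have hLcard : L.card = Desc.card :=
    Finset.card_image_of_injective _ (fun x y hxy => Nat.succ.inj hxy)
  have hLsum : ∑ l ∈ L, b l = ∑ m ∈ Desc, b (m + 1) := by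
    rw [hL, Finset.sum_image]
    intro x _ y _ hxy
    exact Nat.succ.inj hxy
  -- the landing places of the descents
  have hLsub : L ⊆ (L ∩ Asc) ∪ (DDs b N ∪ {N}) := by
    intro l hl
    obtain ⟨m, hm, rfl⟩ := Finset.mem_image.1 hl
    rw [hDesc, Finset.mem_filter, Finset.mem_range] at hm
    obtain ⟨hm1, hm2⟩ := hm
    rw [Finset.mem_union, Finset.mem_union, Finset.mem_singleton]
    rcases Nat.lt_or_ge (m + 1) N with h1 | h1
    · rcases lt_trichotomy (b (m + 1)) (b (m + 1 + 1)) with h2 | h2 | h2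
      · left
        rw [Finset.mem_inter]
        refine ⟨hl, ?_⟩
        rw [hAsc, Finset.mem_filter, Finset.mem_range]
        exact ⟨h1, h2⟩
      · exact absurd h2 (h.ne (by omega))
      · right; left
        rw [DDs, Finset.mem_filter, Finset.mem_range]
        refine ⟨h1, by omega, ?_, h2⟩
        have e : m + 1 - 1 = m := by omega
        rw [e]
        exact hm2
    · right; right
      omega
  have hc1 : Desc.card ≤ (L ∩ Asc).card + ((DDs b N).card + 1) := by
    rw [← hLcard]
    refine (Finset.card_le_card hLsub).trans ((Finset.card_union_le _ _).trans ?_)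
    refine add_le_add le_rfl ((Finset.card_union_le _ _).trans ?_)
    rw [Finset.card_singleton]
  have hc2 : (L ∩ Asc).card ≤ Asc.card := Finset.card_le_card Finset.inter_subset_right
  have hc3 : (Asc \ L).card + (L ∩ Asc).card = Asc.card := by
    rw [Finset.inter_comm]
    exact Finset.card_sdiff_add_card_inter Asc L
  -- the sum over the landings
  have hs1 : ∑ l ∈ L ∩ Asc, b l ≤ ∑ l ∈ L, b l :=
    Finset.sum_le_sum_of_subset_of_nonneg Finset.inter_subset_left
      (fun i _ _ => (h.pos i).le)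
  have hs2 : ∑ m ∈ Asc, b m = ∑ m ∈ Asc \ L, b m + ∑ m ∈ L ∩ Asc, b m := by
    rw [Finset.inter_comm, ← Finset.sum_union]
    · rw [Finset.sdiff_union_inter]
    · exact Finset.disjoint_sdiff_inter Asc L
  have hs3 : ∑ m ∈ Asc \ L, b m ≤ ((Asc \ L).card : ℤ) * (2 * (N : ℤ) - 1) := by
    have := Finset.sum_le_card_nsmul (Asc \ L) b (2 * (N : ℤ) - 1) ?_
    · rw [nsmul_eq_mul] at this
      exact this
    · intro m hm
      have hm1 := (Finset.mem_sdiff.1 hm).1
      rw [hAsc, Finset.mem_filter, Finset.mem_range] at hm1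
      have := h.asc_le hm1.2
      have h2 : ((m : ℕ) : ℤ) + 1 ≤ N := by exact_mod_cast hm1.1
      omega
  -- short ascents
  have hA'sub : A' ⊆ Asc := by
    intro m hm
    rw [hA', Finset.mem_filter] at hm
    rw [hAsc, Finset.mem_filter]
    exact ⟨hm.1, by omega⟩
  have hc4 : ((Asc \ A').card : ℤ) ≤ v - 1 := by
    have h1 : ((Asc \ A').image (fun i => |b (i + 1) - b i|)) ⊆ Finset.Icc 1 (v - 1) := by
      intro t ht
      obtain ⟨m, hm, rfl⟩ := Finset.mem_image.1 ht
      rw [Finset.mem_sdiff, hAsc, hA', Finset.mem_filter, Finset.mem_filter, Finset.mem_range]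
        at hm
      obtain ⟨⟨hm1, hm2⟩, hm3⟩ := hm
      have hm4 : ¬ (b m + v < b (m + 1)) := fun h5 => hm3 ⟨hm1, h5⟩
      have h6 := hd m hm1
      rw [Finset.mem_Icc]
      rw [abs_of_pos (by omega)] at h6 ⊢
      constructor <;> omega
    have h2 := Finset.card_le_card h1
    rw [Finset.card_image_of_injective _ h.dinj, Int.card_Icc] at h2
    omega
  have hc5 : (Asc \ A').card + A'.card = Asc.card := by
    have := Finset.card_sdiff_add_card_eq_card hA'sub
    exact this
  -- the injection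
  have hex : ∀ m, m ∈ A' → ∃ j, j ∈ Desc ∧ b j = b m + v := by
    intro m hm
    rw [hA', Finset.mem_filter, Finset.mem_range] at hm
    obtain ⟨j, h1, h2, h3⟩ := h.exch hv hd hm.1 hm.2
    refine ⟨j, ?_, h2⟩
    rw [hDesc, Finset.mem_filter, Finset.mem_range]
    exact ⟨by omega, by omega⟩
  choose! φ hφ using hex
  set I := A'.image φ with hI
  have hφinj : Set.InjOn φ (A' : Set ℕ) := by
    intro x hx y hy hxy
    have h1 := (hφ x hx).2
    have h2 := (hφ y hy).2
    rw [hxy, h2] at h1
    exact h.inj (by omega)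
  have hIsub : I ⊆ Desc := by
    intro j hj
    obtain ⟨m, hm, rfl⟩ := Finset.mem_image.1 hj
    exact (hφ m hm).1
  have hIcard : I.card = A'.card := Finset.card_image_of_injOn hφinj
  have hIsum : ∑ j ∈ I, b j = ∑ m ∈ A', b m + v * (A'.card : ℤ) := by
    rw [hI, Finset.sum_image hφinj, Finset.sum_congr rfl (fun m hm => (hφ m hm).2),
      Finset.sum_add_distrib, Finset.sum_const, nsmul_eq_mul]
    ring
  have hc6 : (Desc \ I).card + I.card = Desc.card :=
    Finset.card_sdiff_add_card_eq_card hIsub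
  have hs4 : ∑ j ∈ Desc, b j = ∑ j ∈ Desc \ I, b j + ∑ j ∈ I, b j :=
    (Finset.sum_sdiff hIsub).symm
  have hs5 : ∑ j ∈ Desc \ I, b j ≤ ((Desc \ I).card : ℤ) * (3 * (N : ℤ) - 2) := by
    have := Finset.sum_le_card_nsmul (Desc \ I) b (3 * (N : ℤ) - 2) ?_
    · rw [nsmul_eq_mul] at this
      exact this
    · intro m hm
      have hm1 := (Finset.mem_sdiff.1 hm).1
      rw [hDesc, Finset.mem_filter, Finset.mem_range] at hm1
      have := h.le3 m
      have h2 : ((m : ℕ) : ℤ) + 1 ≤ N := by exact_mod_cast hm1.1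
      omega
  have hs6 : ∑ m ∈ A', b m ≤ ∑ m ∈ Asc, b m :=
    Finset.sum_le_sum_of_subset_of_nonneg hA'sub (fun i _ _ => (h.pos i).le)
  -- the sum of the drops
  have hW : 2 * (∑ j ∈ Desc, b j - ∑ j ∈ Desc, b (j + 1)) =
      ∑ i ∈ Finset.range N, |b (i + 1) - b i| - (b N - b 0) := by
    have e1 : b N - b 0 = ∑ i ∈ Finset.range N, (b (i + 1) - b i) :=
      (Finset.sum_range_sub b N).symm
    rw [e1, ← Finset.sum_sub_distrib, ← Finset.sum_sub_distrib, Finset.mul_sum, hDesc,
      Finset.sum_filter]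
    refine Finset.sum_congr rfl ?_
    intro i _
    split_ifs with h1
    · rw [abs_of_neg (by omega)]; ring
    · rw [abs_of_nonneg (by omega)]; ring
  have hdsum : (N : ℤ) * ((N : ℤ) + 1) ≤ 2 * ∑ i ∈ Finset.range N, |b (i + 1) - b i| := by
    have h1 := sum_low 1 ((Finset.range N).image (fun i => |b (i + 1) - b i|)) ?_
    · rw [Finset.sum_image (fun x _ y _ hxy => h.dinj hxy),
        Finset.card_image_of_injective _ h.dinj, Finset.card_range] at h1
      nlinarith
    · intro x hx
      obtain ⟨i, _, rfl⟩ := Finset.mem_image.1 hx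
      have h2 : b (i + 1) - b i ≠ 0 := by
        intro h3
        exact h.ne (Nat.lt_add_one i) (by omega)
      have := abs_pos.2 h2
      omega
  have hbN := h.le3 N
  have hb0 := h.zero
  have hcA : (A'.card : ℤ) ≤ N := by
    have : A'.card ≤ (Finset.range N).card := Finset.card_le_card (Finset.filter_subset _ _)
    rw [Finset.card_range] at this
    exact_mod_cast this
  have hNz : (1 : ℤ) ≤ N := by exact_mod_cast hN
  set K : ℤ := ((DDs b N).card : ℤ) with hK
  have k1 : (Desc.card : ℤ) ≤ ((L ∩ Asc).card : ℤ) + (K + 1) := by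
    rw [hK]; exact_mod_cast hc1
  have k2 : ((L ∩ Asc).card : ℤ) ≤ (Asc.card : ℤ) := by exact_mod_cast hc2
  have k3 : ((Asc \ L).card : ℤ) + ((L ∩ Asc).card : ℤ) = (Asc.card : ℤ) := by
    exact_mod_cast hc3
  have k5 : ((Asc \ A').card : ℤ) + (A'.card : ℤ) = (Asc.card : ℤ) := by
    exact_mod_cast hc5
  have k6 : ((Desc \ I).card : ℤ) + (A'.card : ℤ) = (Desc.card : ℤ) := by
    rw [← hIcard]
    exact_mod_cast hc6
  have k7 : (0 : ℤ) ≤ ((Desc \ I).card : ℤ) := Int.natCast_nonneg _
  have k8 : (0 : ℤ) ≤ K := Int.natCast_nonneg _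
  have r1 : ((Desc \ I).card : ℤ) ≤ K + v := by omega
  have r2 : ((Asc \ L).card : ℤ) ≤ K + v := by omega
  have r3 : ((Desc \ I).card : ℤ) * (3 * (N : ℤ) - 2) ≤ (K + v) * (3 * (N : ℤ) - 2) :=
    mul_le_mul_of_nonneg_right r1 (by omega)
  have r4 : ((Asc \ L).card : ℤ) * (2 * (N : ℤ) - 1) ≤ (K + v) * (2 * (N : ℤ) - 1) :=
    mul_le_mul_of_nonneg_right r2 (by omega)
  have r5 : v * (A'.card : ℤ) ≤ v * (N : ℤ) := mul_le_mul_of_nonneg_left hcA hv.le
  have r6 : (N : ℤ) * ((N : ℤ) - 5) ≤ (N : ℤ) * (24 * v + 20 * K) := by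
    nlinarith [mul_nonneg k8 hv.le]
  exact le_of_mul_le_mul_left r6 (by omega)

/-- The sum over the block. -/
theorem G.block (h : G b) {s k : ℕ} (hk : 2 ≤ k) (hb : ∀ j, j < k → b (s + j) < b (s + j + 1)) :
    ∃ v : ℤ, 0 < v ∧ (∀ i, i < s → |b (i + 1) - b i| ≠ v) ∧
      2 * v * ((k : ℤ) - 1) + ((k : ℤ) - 1) * ((k : ℤ) - 2) ≤ 4 * ((s : ℤ) + k - 1) := by
  classical
  obtain ⟨q, rfl⟩ : ∃ q, k = q + 1 := ⟨k - 1, by omega⟩
  set S := (Finset.range q).image (fun j => |b (s + j + 1) - b (s + j)|) with hS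
  have hinj : Function.Injective (fun j => |b (s + j + 1) - b (s + j)|) := by
    intro x y hxy
    have := h.dinj (a₁ := s + x) (a₂ := s + y) hxy
    omega
  have hne : S.Nonempty := by
    refine ⟨|b (s + 0 + 1) - b (s + 0)|, Finset.mem_image.2 ⟨0, Finset.mem_range.2 (by omega), rfl⟩⟩
  have hmem := S.min'_mem hne
  obtain ⟨j0, hj0, hj0v⟩ := Finset.mem_image.1 hmem
  refine ⟨S.min' hne, ?_, ?_, ?_⟩
  · rw [← hj0v]
    have := hb j0 (by have := Finset.mem_range.1 hj0; omega)
    exact abs_pos.2 (by omega)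
  · intro i hi h1
    rw [← hj0v] at h1
    exact h.dne (i := i) (j := s + j0) (by omega) h1
  · have h1 := sum_low (S.min' hne) S (fun x hx => S.min'_le x hx)
    have hcard : S.card = q := by
      rw [hS, Finset.card_image_of_injective _ hinj, Finset.card_range]
    have hsum : ∑ x ∈ S, x = ∑ j ∈ Finset.range q, |b (s + j + 1) - b (s + j)| := by
      rw [hS]
      exact Finset.sum_image (fun x _ y _ hxy => hinj hxy)
    rw [hcard, hsum] at h1
    have h2 : ∑ j ∈ Finset.range q, |b (s + j + 1) - b (s + j)| = b (s + q) - b s := by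
      have e : ∑ j ∈ Finset.range q, |b (s + j + 1) - b (s + j)| =
          ∑ j ∈ Finset.range q, ((fun x => b (s + x)) (j + 1) - (fun x => b (s + x)) j) := by
        refine Finset.sum_congr rfl ?_
        intro j hj
        have := hb j (by have := Finset.mem_range.1 hj; omega)
        rw [abs_of_pos (by omega)]
        rfl
      rw [e]
      exact Finset.sum_range_sub (fun x => b (s + x)) q
    rw [h2] at h1
    have h3 := h.asc_le (hb q (by omega))
    have h4 := h.pos s
    push_cast at h3 ⊢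
    nlinarith

/-- The sum over several disjoint blocks. -/
theorem G.blocks (h : G b) {T : Finset ℕ} {k N i0 : ℕ} (hk : 2 ≤ k) (hT : T.Nonempty)
    (hi0 : ∀ s ∈ T, i0 ≤ s) (hN : ∀ s ∈ T, s + k ≤ N)
    (hsep : ∀ s ∈ T, ∀ s' ∈ T, s < s' → s + k ≤ s')
    (hb : ∀ s ∈ T, ∀ j, j < k → b (s + j) < b (s + j + 1)) :
    ∃ v : ℤ, 0 < v ∧ (∀ i, i < i0 → |b (i + 1) - b i| ≠ v) ∧
      ((k : ℤ) - 1) * (2 * v + ((T.card : ℤ) * ((k : ℤ) - 1) - 1)) ≤ 4 * ((N : ℤ) - 1) := by
  classical
  obtain ⟨q, rfl⟩ : ∃ q, k = q + 1 := ⟨k - 1, by omega⟩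
  set J := T ×ˢ Finset.range q with hJ
  set f : ℕ × ℕ → ℤ := fun p => |b (p.1 + p.2 + 1) - b (p.1 + p.2)| with hf
  have hinj : Set.InjOn f (J : Set (ℕ × ℕ)) := by
    intro x hx y hy hxy
    obtain ⟨hx1, hx2⟩ := Finset.mem_product.1 (Finset.mem_coe.1 hx)
    obtain ⟨hy1, hy2⟩ := Finset.mem_product.1 (Finset.mem_coe.1 hy)
    rw [Finset.mem_range] at hx2 hy2
    have e : x.1 + x.2 = y.1 + y.2 := h.dinj (a₁ := x.1 + x.2) (a₂ := y.1 + y.2) hxy
    have e1 : x.1 = y.1 := by
      rcases lt_trichotomy x.1 y.1 with h1 | h1 | h1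
      · have := hsep _ hx1 _ hy1 h1
        omega
      · exact h1
      · have := hsep _ hy1 _ hx1 h1
        omega
    exact Prod.ext e1 (by omega)
  set S := J.image f with hS
  have hJne : J.Nonempty := hT.product (Finset.nonempty_range_iff.2 (by omega))
  have hne : S.Nonempty := hJne.image f
  have hmem := S.min'_mem hne
  obtain ⟨p0, hp0, hp0v⟩ := Finset.mem_image.1 hmem
  obtain ⟨hp1, hp2⟩ := Finset.mem_product.1 hp0
  rw [Finset.mem_range] at hp2
  refine ⟨S.min' hne, ?_, ?_, ?_⟩
  · rw [← hp0v]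
    have := hb p0.1 hp1 p0.2 (by omega)
    exact abs_pos.2 (by omega)
  · intro i hi h1
    rw [← hp0v] at h1
    have := hi0 _ hp1
    exact h.dne (i := i) (j := p0.1 + p0.2) (by omega) h1
  · have h1 := sum_low (S.min' hne) S (fun x hx => S.min'_le x hx)
    have hcard : S.card = T.card * q := by
      rw [hS, Finset.card_image_of_injOn hinj, hJ, Finset.card_product, Finset.card_range]
    have hsum : ∑ x ∈ S, x = ∑ s ∈ T, ∑ j ∈ Finset.range q, |b (s + j + 1) - b (s + j)| := by
      rw [hS, Finset.sum_image hinj, hJ, Finset.sum_product]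
    rw [hcard, hsum] at h1
    have h2 : ∀ s ∈ T, ∑ j ∈ Finset.range q, |b (s + j + 1) - b (s + j)| ≤ 2 * ((N : ℤ) - 1) := by
      intro s hs
      have e : ∑ j ∈ Finset.range q, |b (s + j + 1) - b (s + j)| =
          ∑ j ∈ Finset.range q, ((fun x => b (s + x)) (j + 1) - (fun x => b (s + x)) j) := by
        refine Finset.sum_congr rfl ?_
        intro j hj
        have := hb s hs j (by have := Finset.mem_range.1 hj; omega)
        rw [abs_of_pos (by omega)]
        rfl
      have e2 : ∑ j ∈ Finset.range q, ((fun x => b (s + x)) (j + 1) - (fun x => b (s + x)) j) =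
          b (s + q) - b s := Finset.sum_range_sub (fun x => b (s + x)) q
      rw [e, e2]
      have h3 := h.asc_le (hb s hs q (by omega))
      have h4 := h.pos s
      have h5 := hN s hs
      push_cast at h3
      omega
    have h3 := Finset.sum_le_card_nsmul T _ _ h2
    rw [nsmul_eq_mul] at h3
    have hR : (0 : ℤ) < (T.card : ℤ) := by exact_mod_cast hT.card_pos
    push_cast at h1 ⊢
    have h4 : (T.card : ℤ) * ((q : ℤ) * (2 * S.min' hne + ((T.card : ℤ) * (q : ℤ) - 1))) ≤
        (T.card : ℤ) * (4 * ((N : ℤ) - 1)) := by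
      nlinarith
    have h5 := le_of_mul_le_mul_left h4 hR
    have e3 : (q : ℤ) + 1 - 1 = q := by ring
    rw [e3]
    exact h5

end

section

/-- The next term after `h 0, …, h N`. -/
theorem next_ex (h : ℕ → ℤ) (N : ℕ) : ∃ t : ℤ, IsLeast {t : ℤ | 0 < t ∧
    (∀ i, i ≤ N → h i ≠ t) ∧ ∀ i, i < N → |h N - t| ≠ |h (i + 1) - h i|} t := by
  have hinh : ∃ t : ℤ, 0 < t ∧ (∀ i, i ≤ N → h i ≠ t) ∧
      ∀ i, i < N → |h N - t| ≠ |h (i + 1) - h i| := by
    have p1 : ∀ i, i ≤ N → |h i| ≤ ∑ i ∈ Finset.range (N + 1), |h i| := fun i hi =>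
      Finset.single_le_sum (f := fun i => |h i|) (fun j _ => abs_nonneg _)
        (Finset.mem_range.2 (by omega))
    have p2 : ∀ i, i < N → |h (i + 1) - h i| ≤ ∑ i ∈ Finset.range N, |h (i + 1) - h i| :=
      fun i hi => Finset.single_le_sum (f := fun i => |h (i + 1) - h i|)
        (fun j _ => abs_nonneg _) (Finset.mem_range.2 hi)
    have p3 : 0 ≤ ∑ i ∈ Finset.range N, |h (i + 1) - h i| :=
      Finset.sum_nonneg (fun j _ => abs_nonneg _)
    have p4 : 0 ≤ ∑ i ∈ Finset.range (N + 1), |h i| :=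
      Finset.sum_nonneg (fun j _ => abs_nonneg _)
    refine ⟨∑ i ∈ Finset.range (N + 1), |h i| + ∑ i ∈ Finset.range N, |h (i + 1) - h i| + 1,
      by omega, ?_, ?_⟩
    · intro i hi heq
      have q1 := p1 i hi
      have q2 := le_abs_self (h i)
      omega
    · intro i hi heq
      have q1 := p1 N le_rfl
      have q2 := p2 i hi
      have q3 := le_abs_self (h N)
      rw [← heq] at q2
      have q4 := neg_abs_le (h N - (∑ i ∈ Finset.range (N + 1), |h i| +
        ∑ i ∈ Finset.range N, |h (i + 1) - h i| + 1))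
      omega
  obtain ⟨t, h1, h2⟩ := Int.exists_least_of_bdd ⟨0, fun z hz => hz.1.le⟩ hinh
  exact ⟨t, h1, fun z hz => h2 z hz⟩

/-- The first `N + 1` terms (indices from `0`), the rest filled up. -/
noncomputable def hist : ℕ → ℕ → ℤ
  | 0 => fun _ => 1
  | N + 1 => Function.update (hist N) (N + 1) (next_ex (hist N) N).choose

theorem hist_eq {i N : ℕ} (h : i ≤ N) : hist N i = hist i i := by
  induction N with
  | zero =>
    have : i = 0 := by omega
    subst this
    rfl
  | succ N ih =>
    rcases Nat.lt_or_ge N i with h1 | h1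
    · have : i = N + 1 := by omega
      subst this
      rfl
    · rw [hist, Function.update_of_ne (by omega)]
      exact ih h1

theorem exists_G : ∃ b : ℕ → ℤ, G b := by
  refine ⟨fun N => hist N N, rfl, ?_⟩
  intro N
  have h1 := (next_ex (hist N) N).choose_spec
  have h2 : hist (N + 1) (N + 1) = (next_ex (hist N) N).choose := by
    rw [hist, Function.update_self]
  show IsLeast {t : ℤ | 0 < t ∧ (∀ i, i ≤ N → hist i i ≠ t) ∧
      ∀ i, i < N → |hist N N - t| ≠ |hist (i + 1) (i + 1) - hist i i|} (hist (N + 1) (N + 1))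
  rw [h2]
  have h3 : {t : ℤ | 0 < t ∧ (∀ i, i ≤ N → hist i i ≠ t) ∧
      ∀ i, i < N → |hist N N - t| ≠ |hist (i + 1) (i + 1) - hist i i|} =
      {t : ℤ | 0 < t ∧ (∀ i, i ≤ N → hist N i ≠ t) ∧
      ∀ i, i < N → |hist N N - t| ≠ |hist N (i + 1) - hist N i|} := by
    ext t
    constructor
    · rintro ⟨p1, p2, p3⟩
      refine ⟨p1, fun i hi => ?_, fun i hi => ?_⟩
      · rw [hist_eq hi]; exact p2 i hi
      · rw [hist_eq (by omega : i + 1 ≤ N), hist_eq (by omega : i ≤ N)]; exact p3 i hi
    · rintro ⟨p1, p2, p3⟩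
      refine ⟨p1, fun i hi => ?_, fun i hi => ?_⟩
      · rw [← hist_eq hi]; exact p2 i hi
      · rw [← hist_eq (by omega : i + 1 ≤ N), ← hist_eq (by omega : i ≤ N)]; exact p3 i hi
  rw [h3]
  exact h1

theorem exists_greedy : ∃ a : ℕ → ℤ, IsGreedy a := by
  obtain ⟨b, hb⟩ := exists_G
  refine ⟨fun n => b (n - 1), hb.zero, ?_, ?_⟩
  · show b 1 = 2
    have h1 := hb.least 0
    have h2 : b 1 ≤ 2 := h1.2 ⟨by norm_num, fun i hi => by
      have : i = 0 := by omega
      subst this
      rw [hb.zero]; norm_num, fun i hi => absurd hi (Nat.not_lt_zero i)⟩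
    have h3 : 0 < b 1 := h1.1.1
    have h4 : b 0 ≠ b 1 := h1.1.2.1 0 le_rfl
    rw [hb.zero] at h4
    omega
  · intro n hn
    obtain ⟨N, rfl⟩ : ∃ N, n = N + 1 := ⟨n - 1, by omega⟩
    have h1 := hb.least N
    constructor
    · obtain ⟨⟨p1, p2, p3⟩, -⟩ := h1
      refine ⟨p1, ?_, ?_⟩
      · intro i hi1 hi2
        exact p2 (i - 1) (by omega)
      · intro i hi1 hi2
        have := p3 (i - 1) (by omega)
        have e : i - 1 + 1 = i := by omega
        rw [e] at this
        exact this
    · intro t ht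
      obtain ⟨p1, p2, p3⟩ := ht
      refine h1.2 ⟨p1, ?_, ?_⟩
      · intro i hi
        exact p2 (i + 1) (by omega) (by omega)
      · intro i hi
        exact p3 (i + 1) (by omega) (by omega)

end

/-- The four bounds for one block. -/
theorem block_bounds (a : ℕ → ℤ) (ha : IsGreedy a) (i k : ℕ) (hi : 1 ≤ i) (hk : 1 ≤ k)
    (hblock : ∀ j, j < k → a (i + j) < a (i + j + 1)) :
    (k : ℤ) * ((k : ℤ) - 1) ≤ 4 * ((i : ℤ) + k - 2) ∧
      ((k : ℤ) - 1) * ((i : ℤ) - 6 - 20 * (dd a i : ℤ)) + 12 * (((k : ℤ) - 1) * ((k : ℤ) - 2)) ≤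
        48 * ((i : ℤ) + k - 2) ∧
      (dd a i = 0 → k ≤ 48) ∧ (k ≤ 96 ∨ i < 40 * dd a i) := by
  classical
  have hG := G_of a ha
  obtain ⟨s, rfl⟩ : ∃ s, i = s + 1 := ⟨i - 1, by omega⟩
  have hdd : (DDs (fun j => a (j + 1)) s).card ≤ dd a (s + 1) := by
    rw [dd, DDs]
    rw [← Finset.card_image_of_injective _ (Nat.succ_injective)]
    refine Finset.card_le_card ?_
    intro m hm
    obtain ⟨l, hl, rfl⟩ := Finset.mem_image.1 hm
    rw [Finset.mem_filter, Finset.mem_range] at hl ⊢
    obtain ⟨h1, h2, h3, h4⟩ := hl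
    refine ⟨by omega, by omega, ?_, h4⟩
    have e : l - 1 + 1 = l := by omega
    rw [e] at h3
    exact h3
  have key : (k : ℤ) * ((k : ℤ) - 1) ≤ 4 * (((s : ℕ) : ℤ) + 1 + k - 2) ∧
      ((k : ℤ) - 1) * (((s : ℕ) : ℤ) + 1 - 6 - 20 * (dd a (s + 1) : ℤ)) +
        12 * (((k : ℤ) - 1) * ((k : ℤ) - 2)) ≤ 48 * (((s : ℕ) : ℤ) + 1 + k - 2) := by
    rcases Nat.lt_or_ge k 2 with h2 | h2
    · have : k = 1 := by omega
      subst this
      constructor
      · push_cast; omega
      · push_cast
        have : (0:ℤ) ≤ s := Int.natCast_nonneg _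
        nlinarith
    · obtain ⟨v, hv, hvd, hvs⟩ := hG.block (s := s) h2 (by
        intro j hj
        have := hblock j hj
        have e1 : s + 1 + j = s + j + 1 := by omega
        rw [e1] at this
        exact this)
      have hk2 : (2 : ℤ) ≤ k := by exact_mod_cast h2
      have hmexb : ((s : ℕ) : ℤ) - 5 ≤ 24 * v + 20 * (dd a (s + 1) : ℤ) := by
        rcases Nat.eq_zero_or_pos s with h3 | h3
        · subst h3
          have : (0:ℤ) ≤ (dd a (0 + 1) : ℤ) := Int.natCast_nonneg _
          push_cast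
          omega
        · have h4 := hG.mex h3 hv hvd
          have h5 : ((DDs (fun j => a (j + 1)) s).card : ℤ) ≤ (dd a (s + 1) : ℤ) := by
            exact_mod_cast hdd
          omega
      constructor
      · nlinarith
      · have h6 : ((k : ℤ) - 1) * (((s : ℕ) : ℤ) + 1 - 6 - 20 * (dd a (s + 1) : ℤ)) ≤
            ((k : ℤ) - 1) * (24 * v) := mul_le_mul_of_nonneg_left (by omega) (by omega)
        nlinarith
  have hs0 : (0:ℤ) ≤ s := Int.natCast_nonneg _
  refine ⟨by push_cast; exact key.1, by push_cast; exact key.2, ?_, ?_⟩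
  · intro h0
    by_contra hcon
    have hk49 : (49 : ℤ) ≤ k := by
      have : 49 ≤ k := by omega
      exact_mod_cast this
    have h1 := key.2
    rw [h0] at h1
    push_cast at h1
    nlinarith [mul_nonneg (by linarith : (0:ℤ) ≤ (k:ℤ) - 49) hs0,
      mul_nonneg (by linarith : (0:ℤ) ≤ (k:ℤ) - 49) (by linarith : (0:ℤ) ≤ (k:ℤ) - 49)]
  · by_contra hcon
    push Not at hcon
    obtain ⟨hc1, hc2⟩ := hcon
    have hk97 : (97 : ℤ) ≤ k := by
      have : 97 ≤ k := by omega
      exact_mod_cast this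
    have hc3 : 40 * (dd a (s + 1) : ℤ) ≤ (s : ℤ) + 1 := by exact_mod_cast hc2
    have h1 := key.2
    have h2 : ((k : ℤ) - 1) * (40 * (dd a (s + 1) : ℤ)) ≤ ((k : ℤ) - 1) * ((s : ℤ) + 1) :=
      mul_le_mul_of_nonneg_left hc3 (by linarith)
    nlinarith [mul_nonneg (by linarith : (0:ℤ) ≤ (k:ℤ) - 97) hs0,
      mul_nonneg (by linarith : (0:ℤ) ≤ (k:ℤ) - 97) (by linarith : (0:ℤ) ≤ (k:ℤ) - 97)]

/-- The bounds for a family of disjoint blocks. -/
theorem family_bounds (a : ℕ → ℤ) (ha : IsGreedy a) (T : Finset ℕ) (i k N : ℕ) (hT : T.Nonempty)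
    (hi : 1 ≤ i) (hk : 1 ≤ k) (hiN : ∀ s ∈ T, i ≤ s ∧ s + k ≤ N)
    (hsep : ∀ s ∈ T, ∀ s' ∈ T, s < s' → s + k ≤ s')
    (hb : ∀ s ∈ T, ∀ j, j < k → a (s + j) < a (s + j + 1)) :
    ((k : ℤ) - 1) * ((T.card : ℤ) * ((k : ℤ) - 1) + 1) ≤ 4 * ((N : ℤ) - 2) ∧
      ((k : ℤ) - 1) * ((i : ℤ) - 6 - 20 * (dd a i : ℤ)) +
        12 * (((k : ℤ) - 1) * ((T.card : ℤ) * ((k : ℤ) - 1) - 1)) ≤ 48 * ((N : ℤ) - 2) := by
  classical
  have hG := G_of a ha
  obtain ⟨s0, hs0⟩ := hT
  obtain ⟨hs1, hs2⟩ := hiN s0 hs0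
  have hN2 : (2 : ℤ) ≤ N := by
    have : 2 ≤ N := by omega
    exact_mod_cast this
  rcases Nat.lt_or_ge k 2 with h2 | h2
  · have : k = 1 := by omega
    subst this
    constructor
    · push_cast
      linarith
    · push_cast
      linarith
  · obtain ⟨r, rfl⟩ : ∃ r, i = r + 1 := ⟨i - 1, by omega⟩
    obtain ⟨M, rfl⟩ : ∃ M, N = M + 1 := ⟨N - 1, by omega⟩
    obtain ⟨v, hv, hvd, hvs⟩ := hG.blocks (T := T.image (fun s => s - 1)) (k := k) (N := M)
      (i0 := r) h2 ⟨s0 - 1, Finset.mem_image.2 ⟨s0, hs0, rfl⟩⟩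
      (by
        intro s hs
        obtain ⟨t, ht, rfl⟩ := Finset.mem_image.1 hs
        have := hiN t ht
        omega)
      (by
        intro s hs
        obtain ⟨t, ht, rfl⟩ := Finset.mem_image.1 hs
        have := hiN t ht
        omega)
      (by
        intro s hs s' hs' hlt
        obtain ⟨t, ht, rfl⟩ := Finset.mem_image.1 hs
        obtain ⟨t', ht', rfl⟩ := Finset.mem_image.1 hs'
        have h3 := hiN t ht
        have h4 := hiN t' ht'
        have := hsep t ht t' ht' (by omega)
        omega)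
      (by
        intro s hs j hj
        obtain ⟨t, ht, rfl⟩ := Finset.mem_image.1 hs
        have h3 := hiN t ht
        have h4 := hb t ht j hj
        have e1 : t - 1 + j + 1 = t + j := by omega
        show a (t - 1 + j + 1) < a (t - 1 + j + 1 + 1)
        rw [e1]
        exact h4)
    have hcard : (T.image (fun s => s - 1)).card = T.card := by
      refine Finset.card_image_of_injOn ?_
      intro x hx y hy hxy
      have h3 := hiN x (Finset.mem_coe.1 hx)
      have h4 := hiN y (Finset.mem_coe.1 hy)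
      have h5 : x - 1 = y - 1 := hxy
      omega
    rw [hcard] at hvs
    have hk2 : (2 : ℤ) ≤ k := by exact_mod_cast h2
    have hdd : (DDs (fun j => a (j + 1)) r).card ≤ dd a (r + 1) := by
      rw [dd, DDs]
      rw [← Finset.card_image_of_injective _ (Nat.succ_injective)]
      refine Finset.card_le_card ?_
      intro m hm
      obtain ⟨l, hl, rfl⟩ := Finset.mem_image.1 hm
      rw [Finset.mem_filter, Finset.mem_range] at hl ⊢
      obtain ⟨h1, h2, h3, h4⟩ := hl
      refine ⟨by omega, by omega, ?_, h4⟩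
      have e : l - 1 + 1 = l := by omega
      rw [e] at h3
      exact h3
    have hmexb : ((r : ℕ) : ℤ) - 5 ≤ 24 * v + 20 * (dd a (r + 1) : ℤ) := by
      rcases Nat.eq_zero_or_pos r with h3 | h3
      · subst h3
        have : (0:ℤ) ≤ (dd a (0 + 1) : ℤ) := Int.natCast_nonneg _
        push_cast
        omega
      · have h4 := hG.mex h3 hv hvd
        have h5 : ((DDs (fun j => a (j + 1)) r).card : ℤ) ≤ (dd a (r + 1) : ℤ) := by
          exact_mod_cast hdd
        omega
    have hq : (0 : ℤ) ≤ (k : ℤ) - 1 := by linarith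
    have e5 : (0 : ℤ) ≤ ((k : ℤ) - 1) * (v - 1) := mul_nonneg hq (by omega)
    have h6 : ((k : ℤ) - 1) * (((r : ℕ) : ℤ) + 1 - 6 - 20 * (dd a (r + 1) : ℤ)) ≤
        ((k : ℤ) - 1) * (24 * v) := mul_le_mul_of_nonneg_left (by omega) hq
    constructor
    · push_cast
      linarith
    · push_cast
      linarith

/-- **Increasing blocks of the greedy permutation.** The sequence exists. (1) Let the members of a
finite non-empty set `T` be the first indices of pairwise disjoint increasing blocks
`a s < a (s + 1) < … < a (s + k)` inside `a i, …, a N`, `i ≥ 1`, `k ≥ 1`, and let `D = dd a i` be the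
number of double descents before `i`. Then `(k - 1) (|T| (k - 1) + 1) ≤ 4 (N - 2)` and
`(k - 1) (i - 6 - 20 D) + 12 (k - 1) (|T| (k - 1) - 1) ≤ 48 (N - 2)`. (2) If one increasing block with
`k ≥ 1` steps starts at `i ≥ 1`, then `k ≤ 48` (at most 49 terms) if no double descent occurs before
`i`, and `D > i / 40` if `k ≥ 97`. -/
theorem result : (∃ a : ℕ → ℤ, IsGreedy a) ∧
    ∀ a : ℕ → ℤ, IsGreedy a →
      (∀ (T : Finset ℕ) (i k N : ℕ), T.Nonempty → 1 ≤ i → 1 ≤ k →
        (∀ s ∈ T, i ≤ s ∧ s + k ≤ N) →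
        (∀ s ∈ T, ∀ s' ∈ T, s < s' → s + k ≤ s') →
        (∀ s ∈ T, ∀ j, j < k → a (s + j) < a (s + j + 1)) →
        ((k : ℤ) - 1) * ((T.card : ℤ) * ((k : ℤ) - 1) + 1) ≤ 4 * ((N : ℤ) - 2) ∧
        ((k : ℤ) - 1) * ((i : ℤ) - 6 - 20 * (dd a i : ℤ)) +
          12 * (((k : ℤ) - 1) * ((T.card : ℤ) * ((k : ℤ) - 1) - 1)) ≤ 48 * ((N : ℤ) - 2)) ∧
      ∀ i k : ℕ, 1 ≤ i → 1 ≤ k → (∀ j, j < k → a (i + j) < a (i + j + 1)) →
        (dd a i = 0 → k ≤ 48) ∧ (k ≤ 96 ∨ i < 40 * dd a i) :=
  ⟨exists_greedy, fun a ha => ⟨fun T i k N hT hi hk h1 h2 h3 =>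
    family_bounds a ha T i k N hT hi hk h1 h2 h3,
    fun i k hi hk hb => (block_bounds a ha i k hi hk hb).2.2⟩⟩

end Pool.Agent.Results.MP_01f63f_co.BlockLength
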